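import Pool.Agent.W631.VP.Fam

set_option autoImplicit false

/-!
# Vanishing of `Ext¹` and filtrations (Eklof's lemma)
-/

namespace Pool.Agent.W631.GP

open Cardinal Pool.Agent.W440.DL Pool.Agent.W631.VP

universe u

variable {R : Type u} [Ring R]

/-- `Ext¹(G, X) = 0`: every short exact sequence `0 → X → E → G → 0` splits. -/
def ExtZero (G X : ModuleCat.{u} R) : Prop :=
  ∀ (E : ModuleCat.{u} R) (i : X →ₗ[R] E) (p : E →ₗ[R] G), Function.Injective i →
    Function.Surjective p → LinearMap.range i = LinearMap.ker p →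
    ∃ s : G →ₗ[R] E, p ∘ₗ s = LinearMap.id

theorem ExtZero.congr_left {G G' X : ModuleCat.{u} R} (e : G ≃ₗ[R] G') (h : ExtZero G X) :
    ExtZero G' X := by
  intro E i p hi hp hk
  obtain ⟨s, hs⟩ := h E i (e.symm.toLinearMap ∘ₗ p) hi (e.symm.surjective.comp hp) (by
    rw [hk, LinearMap.ker_comp_of_ker_eq_bot _ e.symm.ker])
  refine ⟨s ∘ₗ e.symm.toLinearMap, ?_⟩
  ext x
  have h1 := LinearMap.congr_fun hs (e.symm x)
  have h2 : e.symm (p (s (e.symm x))) = e.symm x := h1
  exact e.symm.injective h2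

theorem small_ext {μ : Cardinal.{u}} (hμ : ℵ₀ ≤ μ) (hR : #R ≤ μ) {N Y : ModuleCat.{u} R}
    (hN : #N ≤ μ) (h : ∀ S : Submodule R Y, #S ≤ μ → ExtZero N (ModuleCat.of R S)) :
    ExtZero N Y := by
  intro E i p hi hp hk
  choose l hl using hp
  let E' : Submodule R E := Submodule.span R (Set.range l)
  have hE' : #E' ≤ μ := mk_span_le _ hμ (Cardinal.mk_range_le.trans hN) hR
  let S : Submodule R Y := E'.comap i
  have hS : #S ≤ μ := by
    refine (Cardinal.mk_le_of_injective (f := fun y : S => (⟨i y.1, y.2⟩ : E')) ?_).trans hE'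
    intro y y' hy
    exact Subtype.ext (hi (congrArg Subtype.val hy))
  have hpi : ∀ y, p (i y) = 0 := by
    intro y
    have : i y ∈ LinearMap.ker p := by rw [← hk]; exact ⟨y, rfl⟩
    exact this
  obtain ⟨s, hs⟩ := h S hS (ModuleCat.of R E') (i.restrict (fun y hy => hy)) (p ∘ₗ E'.subtype)
    (by
      intro y y' hy
      exact Subtype.ext (hi (congrArg Subtype.val hy)))
    (by
      intro n
      exact ⟨⟨l n, Submodule.subset_span ⟨n, rfl⟩⟩, hl n⟩)
    (by
      ext ⟨e, he⟩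
      constructor
      · rintro ⟨⟨y, hy⟩, hy'⟩
        have h1 : i y = e := congrArg Subtype.val hy'
        show p e = 0
        rw [← h1]; exact hpi y
      · intro h1
        have h2 : p e = 0 := h1
        have h3 : e ∈ LinearMap.range i := by rw [hk]; exact h2
        obtain ⟨y, hy⟩ := h3
        have hyS : y ∈ S := by
          show i y ∈ E'
          rw [hy]; exact he
        exact ⟨⟨y, hyS⟩, Subtype.ext hy⟩)
  exact ⟨E'.subtype ∘ₗ s, hs⟩

section Eklof

variable {G E : Type u} [AddCommGroup G] [Module R G] [AddCommGroup E] [Module R E]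

/-- extension of a partial section by one step -/
theorem step {Y : ModuleCat.{u} R} (i : Y →ₗ[R] E) (p : E →ₗ[R] G) (hi : Function.Injective i)
    (hp : Function.Surjective p) (hk : LinearMap.range i = LinearMap.ker p)
    (m : G →ₗ.[R] E) (hm : ∀ x : m.domain, p (m x) = x) (F : Submodule R G)
    (hF : m.domain ≤ F) (hN : ExtZero (quo F m.domain) Y) :
    ∃ m' : G →ₗ.[R] E, m ≤ m' ∧ m'.domain = F ∧ ∀ x : m'.domain, p (m' x) = x := by
  classical
  let Ew : Submodule R E := F.comap p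
  let B : Submodule R E := LinearMap.range m.toFun
  have hB : ∀ x : m.domain, m x ∈ B := fun x => ⟨x, rfl⟩
  have hBE : B ≤ Ew := by
    rintro _ ⟨x, rfl⟩
    show p (m x) ∈ F
    rw [hm]
    exact hF x.2
  have hpi : ∀ y, p (i y) = 0 := by
    intro y
    have : i y ∈ LinearMap.ker p := by rw [← hk]; exact ⟨y, rfl⟩
    exact this
  have hiE : ∀ y, i y ∈ Ew := fun y => by
    show p (i y) ∈ F
    rw [hpi]; exact F.zero_mem
  let Q := Ew ⧸ B.submoduleOf Ew
  let i' : Y →ₗ[R] Q := Submodule.mkQ _ ∘ₗ LinearMap.codRestrict Ew i hiE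
  let p1 : Ew →ₗ[R] (F ⧸ m.domain.submoduleOf F) :=
    Submodule.mkQ _ ∘ₗ p.restrict (p := Ew) (q := F) (fun x hx => hx)
  have hp1 : B.submoduleOf Ew ≤ LinearMap.ker p1 := by
    rintro ⟨e, he⟩ h
    obtain ⟨x, hx⟩ : e ∈ B := h
    have hx' : m x = e := hx
    show p1 ⟨e, he⟩ = 0
    show Submodule.mkQ (m.domain.submoduleOf F) ⟨p e, he⟩ = 0
    rw [Submodule.mkQ_apply, Submodule.Quotient.mk_eq_zero]
    show p e ∈ m.domain
    rw [← hx', hm]
    exact x.2
  let p' : Q →ₗ[R] (F ⧸ m.domain.submoduleOf F) := Submodule.liftQ _ p1 hp1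
  have hp'mk : ∀ (e : E) (he : e ∈ Ew), p' (Submodule.mkQ (B.submoduleOf Ew) ⟨e, he⟩) =
      Submodule.mkQ (m.domain.submoduleOf F) ⟨p e, he⟩ := fun e he => rfl
  obtain ⟨t, ht⟩ := hN (ModuleCat.of R Q) i' p' (by
      rw [injective_iff_map_eq_zero]
      intro y hy
      have h1 : Submodule.mkQ (B.submoduleOf Ew) ⟨i y, hiE y⟩ = 0 := hy
      rw [Submodule.mkQ_apply, Submodule.Quotient.mk_eq_zero] at h1
      obtain ⟨x, hx⟩ : i y ∈ B := h1
      have hx' : m x = i y := hx
      have h2 : (x : G) = 0 := by rw [← hm x, hx', hpi]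
      have h3 : x = 0 := Subtype.ext h2
      rw [h3, LinearPMap.map_zero] at hx'
      exact hi (by rw [← hx', map_zero])) (by
      intro z
      obtain ⟨⟨x, hx⟩, rfl⟩ := Submodule.mkQ_surjective _ z
      obtain ⟨e, he⟩ := hp x
      have hex : e ∈ Ew := by
        show p e ∈ F
        rw [he]; exact hx
      refine ⟨Submodule.mkQ (B.submoduleOf Ew) ⟨e, hex⟩, ?_⟩
      rw [hp'mk]
      congr 1
      exact Subtype.ext he) (by
      ext z
      constructor
      · rintro ⟨y, rfl⟩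
        show p' (Submodule.mkQ (B.submoduleOf Ew) ⟨i y, hiE y⟩) = 0
        rw [hp'mk, Submodule.mkQ_apply, Submodule.Quotient.mk_eq_zero]
        show p (i y) ∈ m.domain
        rw [hpi]; exact m.domain.zero_mem
      · intro hz
        obtain ⟨⟨e, he⟩, rfl⟩ := Submodule.mkQ_surjective _ z
        have h1 : p' (Submodule.mkQ (B.submoduleOf Ew) ⟨e, he⟩) = 0 := hz
        rw [hp'mk, Submodule.mkQ_apply, Submodule.Quotient.mk_eq_zero] at h1
        have h2 : p e ∈ m.domain := h1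
        have h3 : e - m ⟨p e, h2⟩ ∈ LinearMap.range i := by
          rw [hk, LinearMap.mem_ker, map_sub, hm, sub_self]
        obtain ⟨y, hy⟩ := h3
        refine ⟨y, ?_⟩
        show Submodule.mkQ (B.submoduleOf Ew) ⟨i y, hiE y⟩ = _
        rw [Submodule.mkQ_apply, Submodule.mkQ_apply, Submodule.Quotient.eq]
        show i y - e ∈ B
        rw [hy]
        have h4 : e - m ⟨p e, h2⟩ - e = - m ⟨p e, h2⟩ := by abel
        rw [h4]
        exact B.neg_mem (hB _))
  have ht' : ∀ z, p' (t z) = z := fun z => LinearMap.congr_fun ht z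
  -- lifting
  have hex : ∀ x : F, ∃ e : E, p e = x ∧ ∃ he : e ∈ Ew,
      Submodule.mkQ (B.submoduleOf Ew) ⟨e, he⟩ = t (Submodule.mkQ _ x) := by
    rintro ⟨x, hx⟩
    obtain ⟨⟨e, he⟩, h1⟩ := Submodule.mkQ_surjective _ (t (Submodule.mkQ _ ⟨x, hx⟩))
    have h2 := ht' (Submodule.mkQ _ ⟨x, hx⟩)
    rw [← h1, hp'mk, Submodule.mkQ_apply, Submodule.mkQ_apply, Submodule.Quotient.eq] at h2
    have h3 : p e - x ∈ m.domain := h2
    have h4 : m ⟨p e - x, h3⟩ ∈ Ew := hBE (hB _)
    refine ⟨e - m ⟨p e - x, h3⟩, ?_, Ew.sub_mem he h4, ?_⟩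
    · rw [map_sub, hm]
      show p e - (p e - x) = x
      abel
    · rw [← h1, Submodule.mkQ_apply, Submodule.mkQ_apply, Submodule.Quotient.eq]
      show e - m ⟨p e - x, h3⟩ - e ∈ B
      have h5 : e - m ⟨p e - x, h3⟩ - e = - m ⟨p e - x, h3⟩ := by abel
      rw [h5]
      exact B.neg_mem (hB _)
  have huniq : ∀ (e e' : E) (he : e ∈ Ew) (he' : e' ∈ Ew), p e = p e' →
      Submodule.mkQ (B.submoduleOf Ew) ⟨e, he⟩ = Submodule.mkQ (B.submoduleOf Ew) ⟨e', he'⟩ →
      e = e' := by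
    intro e e' he he' h1 h2
    rw [Submodule.mkQ_apply, Submodule.mkQ_apply, Submodule.Quotient.eq] at h2
    obtain ⟨x, hx⟩ : e - e' ∈ B := h2
    have hx' : m x = e - e' := hx
    have h3 : (x : G) = 0 := by rw [← hm x, hx', map_sub, h1, sub_self]
    have h4 : x = 0 := Subtype.ext h3
    rw [h4, LinearPMap.map_zero] at hx'
    exact (sub_eq_zero.1 hx'.symm)
  choose q hq1 hq2 hq3 using hex
  let f : F →ₗ[R] E :=
    { toFun := q
      map_add' := fun x y => by
        refine huniq _ _ (hq2 _) (Ew.add_mem (hq2 x) (hq2 y)) ?_ ?_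
        · rw [map_add, hq1, hq1, hq1]; rfl
        · rw [hq3]
          have e1 : (⟨q x + q y, Ew.add_mem (hq2 x) (hq2 y)⟩ : Ew) =
            ⟨q x, hq2 x⟩ + ⟨q y, hq2 y⟩ := rfl
          rw [e1, map_add, map_add, map_add, hq3, hq3]
      map_smul' := fun r x => by
        refine huniq _ _ (hq2 _) (Ew.smul_mem r (hq2 x)) ?_ ?_
        · rw [map_smul, hq1, hq1]; rfl
        · rw [hq3]
          have e1 : Submodule.mkQ (B.submoduleOf Ew) ⟨r • q x, Ew.smul_mem r (hq2 x)⟩ =
            r • Submodule.mkQ (B.submoduleOf Ew) ⟨q x, hq2 x⟩ :=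
            map_smul (Submodule.mkQ (B.submoduleOf Ew)) r (⟨q x, hq2 x⟩ : Ew)
          refine Eq.trans ?_ e1.symm
          rw [hq3, map_smul, map_smul] }
  refine ⟨⟨F, f⟩, ⟨hF, ?_⟩, rfl, fun x => hq1 x⟩
  intro x y hxy
  show m x = q y
  refine huniq _ _ (hBE (hB x)) (hq2 y) ?_ ?_
  · rw [hm, hq1, hxy]
  · rw [hq3]
    have h1 : Submodule.mkQ (B.submoduleOf Ew) ⟨m x, hBE (hB x)⟩ = 0 := by
      rw [Submodule.mkQ_apply, Submodule.Quotient.mk_eq_zero]
      exact hB x
    have h2 : Submodule.mkQ (m.domain.submoduleOf F) y = 0 := by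
      rw [Submodule.mkQ_apply, Submodule.Quotient.mk_eq_zero]
      show (y : G) ∈ m.domain
      rw [← hxy]; exact x.2
    rw [h1, h2, map_zero]

/-- **Eklof's lemma**. -/
theorem eklof {A : Cls R} {G : ModuleCat.{u} R} (hG : Filt A G) {Y : ModuleCat.{u} R}
    (h : ∀ N, A N → ExtZero N Y) : ExtZero G Y := by
  classical
  intro E i p hi hp hk
  obtain ⟨W, i1, i2, F, hF1, hF2, hF3⟩ := hG
  let P : Set (G →ₗ.[R] E) := {m | (∀ x : m.domain, p (m x) = x) ∧
    m.domain ≤ ⨆ w : {w // F w ≤ m.domain}, F w.1}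
  obtain ⟨m, -, hmax⟩ := zorn_le_nonempty₀ P (by
      intro c hc hchain y hy
      have hdir : DirectedOn (· ≤ ·) c := hchain.directedOn
      refine ⟨LinearPMap.sSup c hdir, ⟨?_, ?_⟩, fun z hz => LinearPMap.le_sSup hdir hz⟩
      · rintro ⟨x, hx⟩
        obtain ⟨f, hf, hxf⟩ := (LinearPMap.mem_domain_sSup_iff ⟨y, hy⟩ hdir).1 hx
        have h1 := LinearPMap.sSup_apply hdir hf ⟨x, hxf⟩
        rw [h1]
        exact (hc hf).1 ⟨x, hxf⟩
      · intro x hx
        obtain ⟨f, hf, hxf⟩ := (LinearPMap.mem_domain_sSup_iff ⟨y, hy⟩ hdir).1 hx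
        have h2 : f.domain ≤ (LinearPMap.sSup c hdir).domain := (LinearPMap.le_sSup hdir hf).1
        have h3 := (hc hf).2 hxf
        refine (iSup_le ?_ : (⨆ w : {w // F w ≤ f.domain}, F w.1) ≤ _) h3
        rintro ⟨w, hw⟩
        exact le_iSup (fun w : {w // F w ≤ (LinearPMap.sSup c hdir).domain} => F w.1)
          ⟨w, hw.trans h2⟩)
    ⊥ ⟨by
      rintro ⟨x, hx⟩
      have hx0 : x = 0 := by
        have : x ∈ (⊥ : Submodule R G) := hx
        simpa using this
      subst hx0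
      show p ((⊥ : G →ₗ.[R] E) 0) = 0
      rw [LinearPMap.map_zero, map_zero], by
      show (⊥ : Submodule R G) ≤ _
      exact bot_le⟩
  have hmP := hmax.1
  by_cases htop : m.domain = ⊤
  · refine ⟨m.toFun ∘ₗ (LinearMap.codRestrict m.domain LinearMap.id (fun x => by
      rw [htop]; trivial)), ?_⟩
    ext x
    exact hmP.1 ⟨x, by rw [htop]; trivial⟩
  · exfalso
    have hne : ∃ w, ¬ F w ≤ m.domain := by
      by_contra hcon
      push Not at hcon
      apply htop
      rw [eq_top_iff, ← hF2]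
      exact iSup_le hcon
    obtain ⟨w, hw, hmin⟩ := WellFounded.has_min (wellFounded_lt (α := W))
      {w | ¬ F w ≤ m.domain} hne
    have hlt : ∀ v, v < w → F v ≤ m.domain := fun v hv => by
      by_contra hcon
      exact hmin v hcon hv
    have hdom : m.domain = ⨆ v : Set.Iio w, F v.1 := by
      apply le_antisymm
      · refine hmP.2.trans (iSup_le ?_)
        rintro ⟨v, hv⟩
        have hvw : v < w := by
          by_contra hcon
          exact hw ((hF1 (not_lt.1 hcon)).trans hv)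
        exact le_iSup (fun v : Set.Iio w => F v.1) ⟨v, hvw⟩
      · exact iSup_le fun v => hlt v.1 v.2
    have hle : m.domain ≤ F w := by
      rw [hdom]
      exact iSup_le fun v => hF1 (le_of_lt v.2)
    have hN : ExtZero (quo (F w) m.domain) Y := by
      rw [hdom]
      exact h _ (hF3 w)
    obtain ⟨m', h1, h2, h3⟩ := step (Y := Y) (E := E) (G := G) i p hi hp hk m hmP.1 (F w) hle hN
    have h4 : m' ∈ P := by
      refine ⟨h3, ?_⟩
      conv_lhs => rw [h2]
      exact le_iSup (fun v : {v // F v ≤ m'.domain} => F v.1) ⟨w, by rw [h2]⟩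
    have h5 := hmax.2 h4 h1
    apply hw
    have h6 := h5.1
    rw [h2] at h6
    exact h6

end Eklof

end Pool.Agent.W631.GP
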