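import Pool.Agent.W631.GP.Kcx

set_option autoImplicit false

/-!
# Extensions of the complex `P1 → P0` by modules concentrated in degree 0
-/

namespace Pool.Agent.W631.GP

open Pool.Agent.W440.DL Cardinal

universe u

variable {A : Type u} [Ring A]

/-- the part of degree 0 of an arbitrary map -/
def D0map {S E : Type u} [AddCommGroup S] [Module (Per A) S] [AddCommGroup E] [Module (Per A) E]
    (i : S →ₗ[Per A] E) : D0 A S →ₗ[A] D0 A E where
  toFun y := ⟨i y, by
    rw [mem_D0, ← map_smul, mem_D0.1 y.2]⟩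
  map_add' x y := Subtype.ext (map_add i _ _)
  map_smul' a y := Subtype.ext (map_smul i _ _)

theorem coe_D0map {S E : Type u} [AddCommGroup S] [Module (Per A) S] [AddCommGroup E]
    [Module (Per A) E] (i : S →ₗ[Per A] E) (y : D0 A S) : ((D0map i y : D0 A E) : E) = i y := rfl

section Pres

variable {P0 P1 M : Type u} [AddCommGroup P0] [Module A P0] [AddCommGroup P1] [Module A P1]
  [AddCommGroup M] [Module A M] (ι : P1 →ₗ[A] P0) (π : P0 →ₗ[A] M)

theorem ext_zero_aux [Module.Projective A P1] (hπ : Function.Surjective π)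
    (hι : LinearMap.range ι = LinearMap.ker π) {S E : Type u} [AddCommGroup S] [Module (Per A) S]
    [AddCommGroup E] [Module (Per A) E]
    (h1 : ∀ s : S, (e1 : Per A) • s = 0) (h0 : ∀ f : M →ₗ[A] D0 A S, f = 0)
    (i : S →ₗ[Per A] E) (p : E →ₗ[Per A] (Gc (A := A) ι).T) (hi : Function.Injective i)
    (hp : Function.Surjective p) (hk : LinearMap.range i = LinearMap.ker p) :
    ∃ s : (Gc (A := A) ι).T →ₗ[Per A] E, p ∘ₗ s = LinearMap.id := by
  -- the part of degree 1 of `p` is bijective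
  have hinj : Function.Injective (out1 (Gc (A := A) ι) p) := by
    rw [injective_iff_map_eq_zero]
    intro y hy
    have h2 : p y = 0 := by
      rw [p_D1, hy]
      rfl
    have h3 : (y : E) ∈ LinearMap.range i := by rw [hk]; exact h2
    obtain ⟨s, hs⟩ := h3
    apply Subtype.ext
    show (y : E) = 0
    rw [← mem_D1.1 y.2, ← hs, ← map_smul, h1, map_zero]
  let t : D1 A E ≃ₗ[A] P0 := LinearEquiv.ofBijective (out1 (Gc (A := A) ι) p)
    ⟨hinj, out1_surj p hp⟩
  have ht : ∀ y, t y = out1 (Gc (A := A) ι) p y := fun y => rfl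
  let f1 : P0 →ₗ[A] D1 A E := t.symm.toLinearMap
  have hf1 : ∀ x, out1 (Gc (A := A) ι) p (f1 x) = x := fun x => t.apply_symm_apply x
  -- a section in degree 0
  obtain ⟨f0, hf0⟩ := Module.projective_lifting_property (out0 (Gc (A := A) ι) p)
    (LinearMap.id : P1 →ₗ[A] P1) (out0_surj p hp)
  have hf0' : ∀ a, out0 (Gc (A := A) ι) p (f0 a) = a := fun a => LinearMap.congr_fun hf0 a
  have h2 : ∀ x : P1, Dm (f0 x) = f1 (ι x) := by
    intro x
    apply hinj
    rw [hf1, out_Dm, hf0']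
    rfl
  -- the other differential
  let φ : P0 →ₗ[A] D0 A E := Dm' ∘ₗ f1
  have hφ : ∀ x, p (φ x) = 0 := by
    intro x
    rw [p_D0]
    show (⟨out0 (Gc (A := A) ι) p (Dm' (f1 x)), 0⟩ : (Gc (A := A) ι).T) = 0
    rw [out_Dm']
    rfl
  have hi0 : Function.Injective (D0map i) := by
    intro y y' hy
    exact Subtype.ext (hi (congrArg Subtype.val hy))
  have hφ' : ∀ x, φ x ∈ LinearMap.range (D0map i) := by
    intro x
    have h3 : ((φ x : D0 A E) : E) ∈ LinearMap.range i := by rw [hk]; exact hφ x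
    obtain ⟨s, hs⟩ := h3
    have h4 : s ∈ D0 A S := by
      rw [mem_D0]
      apply hi
      rw [map_smul, hs]
      exact (φ x).2
    exact ⟨⟨s, h4⟩, Subtype.ext hs⟩
  let φ1 : P0 →ₗ[A] D0 A S := (LinearEquiv.ofInjective (D0map i) hi0).symm.toLinearMap ∘ₗ
    LinearMap.codRestrict (LinearMap.range (D0map i)) φ hφ'
  have hφ1 : ∀ x, D0map i (φ1 x) = φ x := by
    intro x
    have h3 := LinearEquiv.apply_symm_apply (LinearEquiv.ofInjective (D0map i) hi0)
      (LinearMap.codRestrict (LinearMap.range (D0map i)) φ hφ' x)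
    exact congrArg Subtype.val h3
  have hφι : ∀ x, φ1 (ι x) = 0 := by
    intro x
    apply hi0
    rw [hφ1, map_zero]
    show Dm' (f1 (ι x)) = 0
    rw [← h2, Dm'_Dm]
  have hφker : LinearMap.ker π ≤ LinearMap.ker φ1 := by
    rw [← hι]
    rintro _ ⟨x, rfl⟩
    exact hφι x
  let ψ : M →ₗ[A] D0 A S := (LinearMap.ker π).liftQ φ1 hφker ∘ₗ
    (π.quotKerEquivOfSurjective hπ).symm.toLinearMap
  have hψ : ∀ x, ψ (π x) = φ1 x := by
    intro x
    have h3 : (π.quotKerEquivOfSurjective hπ).symm (π x) = Submodule.Quotient.mk x := by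
      rw [LinearEquiv.symm_apply_eq]
      rfl
    show (LinearMap.ker π).liftQ φ1 hφker ((π.quotKerEquivOfSurjective hπ).symm (π x)) = φ1 x
    rw [h3]
    rfl
  have hφ0 : ∀ x, φ x = 0 := by
    intro x
    rw [← hφ1, ← hψ, h0 ψ]
    exact map_zero _
  have h3 : ∀ x : P0, Dm' (f1 x) = f0 ((0 : P0 →ₗ[A] P1) x) := by
    intro x
    have h4 := hφ0 x
    rw [LinearMap.zero_apply, map_zero]
    exact h4
  refine ⟨mkT (Gc (A := A) ι) f0 f1 h2 h3, ?_⟩
  refine LinearMap.ext fun x => ?_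
  have e2 : p (mkT (Gc (A := A) ι) f0 f1 h2 h3 x) = p (f0 x.x0) + p (f1 x.x1) :=
    map_add p _ _
  have e3 : p (f0 x.x0) = ⟨x.x0, 0⟩ := by
    rw [p_D0]
    exact congrArg (fun y => (⟨y, 0⟩ : (Gc (A := A) ι).T)) (hf0' x.x0)
  have e4 : p (f1 x.x1) = ⟨0, x.x1⟩ := by
    rw [p_D1]
    exact congrArg (fun y => (⟨0, y⟩ : (Gc (A := A) ι).T)) (hf1 x.x1)
  refine e2.trans ?_
  rw [e3, e4]
  exact Cx.T.ext (add_zero _) (zero_add _)

theorem ext_zero_of [Module.Projective A P1] (hπ : Function.Surjective π)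
    (hι : LinearMap.range ι = LinearMap.ker π) (S : ModuleCat.{u} (Per A))
    (h1 : ∀ s : S, (e1 : Per A) • s = 0) (h0 : ∀ f : M →ₗ[A] D0 A S, f = 0) :
    ExtZero (ModuleCat.of (Per A) (Gc (A := A) ι).T) S := by
  intro E i p hi hp hk
  exact ext_zero_aux ι π hπ hι h1 h0 i p hi hp hk

/-- the extension of `P1 → P0` by `M` given by `π` -/
def Ec (hι : ∀ x, π (ι x) = 0) : Cx A where
  X0 := M × P1
  X1 := P0
  d := ι ∘ₗ LinearMap.snd A M P1
  d' := LinearMap.inl A M P1 ∘ₗ π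
  h x := by
    show ((π (ι x.2), 0) : M × P1) = 0
    rw [hι]; rfl
  h' x := by
    show ι 0 = 0
    rw [map_zero]

/-- inclusion -/
def Ei (hι : ∀ x, π (ι x) = 0) : (Yc A M).T →ₗ[Per A] (Ec (A := A) ι π hι).T :=
  mapT (Yc A M) (Ec (A := A) ι π hι) (LinearMap.inl A M P1) 0
    (fun x => by
      show ι 0 = 0
      rw [map_zero])
    (fun x => by
      show ((π 0, 0) : M × P1) = (0, 0)
      rw [map_zero])

/-- projection -/
def Ep (hι : ∀ x, π (ι x) = 0) : (Ec (A := A) ι π hι).T →ₗ[Per A] (Gc (A := A) ι).T :=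
  mapT (Ec (A := A) ι π hι) (Gc (A := A) ι) (LinearMap.snd A M P1) LinearMap.id
    (fun _ => rfl)
    (fun _ => rfl)

theorem not_ext_zero (hπ : Function.Surjective π) (hι : ∀ x, π (ι x) = 0) (x : M) (hx : x ≠ 0) :
    ¬ ExtZero (ModuleCat.of (Per A) (Gc (A := A) ι).T) (ModuleCat.of (Per A) (Yc A M).T) := by
  intro h
  obtain ⟨s, hs⟩ := h (ModuleCat.of (Per A) (Ec (A := A) ι π hι).T) (Ei ι π hι) (Ep ι π hι)
    (by
      intro y y' hy
      have h1 : ((y.x0, 0) : M × P1) = (y'.x0, 0) := congrArg Cx.T.x0 hy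
      exact Cx.T.ext (congrArg Prod.fst h1) rfl)
    (by
      intro y
      exact ⟨⟨(0, y.x0), y.x1⟩, rfl⟩)
    (by
      ext y
      constructor
      · rintro ⟨z, rfl⟩
        rfl
      · intro hy
        have h1 : y.x0.2 = 0 := congrArg Cx.T.x0 hy
        have h2 : y.x1 = 0 := congrArg Cx.T.x1 hy
        exact ⟨⟨y.x0.1, PUnit.unit⟩, Cx.T.ext (Prod.ext rfl h1.symm) h2.symm⟩)
  obtain ⟨q, rfl⟩ := hπ x
  apply hx
  let g : (Gc (A := A) ι).T := ⟨0, q⟩
  have hg : (dd' : Per A) • g = 0 := by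
    refine Cx.T.ext ?_ ?_
    · show (0 : A) • (0 : P1) + (1 : A) • (0 : P1) = 0
      rw [smul_zero, smul_zero, add_zero]
    · show (0 : A) • q + (0 : A) • ι 0 = 0
      rw [zero_smul, zero_smul, add_zero]
  have h1 : (dd' : Per A) • s g = 0 := by rw [← map_smul, hg, map_zero]
  have h2 : (s g).x1 = q := congrArg Cx.T.x1 (LinearMap.congr_fun hs g)
  have h3 : ((dd' : Per A) • s g).x0 = (Ec (A := A) ι π hι).d' (s g).x1 := by
    simp [dd']
  rw [h1, h2] at h3
  exact (congrArg Prod.fst h3).symm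

end Pres

/-- small submodules of `M` in degree 0 -/
theorem sub_Y {M M' : Type u} [AddCommGroup M] [Module A M] [AddCommGroup M'] [Module A M']
    (S : Submodule (Per A) (Yc A M').T) (f : M →ₗ[A] D0 A S) (hf : f ≠ 0) :
    ∃ g : M →ₗ[A] M', g ≠ 0 ∧ #(LinearMap.range g) ≤ #S := by
  let r : D0 A S →ₗ[A] M' :=
    { toFun := fun y => (y : S).1.x0
      map_add' := fun x y => rfl
      map_smul' := fun a y => by
        show ((s0 a : Per A) • ((y : S).1)).x0 = a • ((y : S).1.x0)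
        simp [s0] }
  have hr : ∀ y, r y = 0 → y = 0 := by
    intro y hy
    apply Subtype.ext
    apply Subtype.ext
    exact Cx.T.ext hy rfl
  refine ⟨r ∘ₗ f, ?_, ?_⟩
  · intro h
    apply hf
    refine LinearMap.ext fun x => hr _ ?_
    exact LinearMap.congr_fun h x
  · have h1 : ∀ y : LinearMap.range (r ∘ₗ f), ∃ z : D0 A S, r z = y := by
      rintro ⟨_, x, rfl⟩
      exact ⟨f x, rfl⟩
    choose z hz using h1
    refine Cardinal.mk_le_of_injective (f := fun y => (z y : S)) ?_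
    intro y y' hy
    apply Subtype.ext
    rw [← hz y, ← hz y', Subtype.ext hy]

theorem e1_Y {M' : Type u} [AddCommGroup M'] [Module A M'] (S : Submodule (Per A) (Yc A M').T)
    (s : S) : (e1 : Per A) • s = 0 := by
  apply Subtype.ext
  refine Cx.T.ext ?_ rfl
  show ((e1 : Per A) • s.1).x0 = 0
  simp [e1]

end Pool.Agent.W631.GP
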