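import Pool.Agent.W631.GP.Per
import Pool.Agent.W631.GP.Eklof

set_option autoImplicit false

/-!
# Projective 2-periodic complexes, an acyclic complex, extensions
-/

namespace Pool.Agent.W631.GP

open Pool.Agent.W440.DL

universe u

variable {A : Type u} [Ring A]

theorem Cx.T.mk_add {X : Cx A} (a b : X.X0) (c d : X.X1) :
    (⟨a, c⟩ + ⟨b, d⟩ : X.T) = ⟨a + b, c + d⟩ := rfl

section K

variable (Q Q' : Type u) [AddCommGroup Q] [Module A Q] [AddCommGroup Q'] [Module A Q']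

/-- the contractible complex on `Q` in degree 0 and `Q'` in degree 1 -/
def Kc : Cx A where
  X0 := Q × Q'
  X1 := Q × Q'
  d := LinearMap.prod (LinearMap.fst A Q Q') 0
  d' := LinearMap.prod 0 (LinearMap.snd A Q Q')
  h _ := rfl
  h' _ := rfl

theorem Kc_d (a : Q) (b : Q') : (Kc (A := A) Q Q').d (a, b) = (a, 0) := rfl
theorem Kc_d' (a : Q) (b : Q') : (Kc (A := A) Q Q').d' (a, b) = (0, b) := rfl

theorem Kc_sec [Module.Projective A Q] [Module.Projective A Q'] {E : Type u} [AddCommGroup E]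
    [Module (Per A) E] (p : E →ₗ[Per A] (Kc (A := A) Q Q').T) (hp : Function.Surjective p) :
    ∃ s : (Kc (A := A) Q Q').T →ₗ[Per A] E, p ∘ₗ s = LinearMap.id := by
  obtain ⟨σ, hσ⟩ := Module.projective_lifting_property (out0 _ p) (LinearMap.inl A Q Q')
    (out0_surj p hp)
  obtain ⟨τ, hτ⟩ := Module.projective_lifting_property (out1 _ p) (LinearMap.inr A Q Q')
    (out1_surj p hp)
  have hσ' : ∀ a, out0 _ p (σ a) = (a, 0) := fun a => LinearMap.congr_fun hσ a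
  have hτ' : ∀ b, out1 _ p (τ b) = (0, b) := fun b => LinearMap.congr_fun hτ b
  let f0 : Q × Q' →ₗ[A] D0 A E := LinearMap.coprod σ (Dm' ∘ₗ τ)
  let f1 : Q × Q' →ₗ[A] D1 A E := LinearMap.coprod (Dm ∘ₗ σ) τ
  have hf0 : ∀ a b, f0 (a, b) = σ a + Dm' (τ b) := fun a b => rfl
  have hf1 : ∀ a b, f1 (a, b) = Dm (σ a) + τ b := fun a b => rfl
  have h1 : ∀ x, Dm (f0 x) = f1 ((Kc (A := A) Q Q').d x) := by
    rintro ⟨a, b⟩
    rw [Kc_d, hf0, hf1, map_add, Dm_Dm', map_zero]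
  have h2 : ∀ x, Dm' (f1 x) = f0 ((Kc (A := A) Q Q').d' x) := by
    rintro ⟨a, b⟩
    rw [Kc_d', hf0, hf1, map_add, Dm'_Dm, map_zero]
  refine ⟨mkT (Kc (A := A) Q Q') f0 f1 h1 h2, ?_⟩
  have e0 : ∀ x, out0 _ p (f0 x) = x := by
    rintro ⟨a, b⟩
    rw [hf0, map_add, out_Dm', hσ', hτ']
    exact Prod.ext (add_zero a) (zero_add b)
  have e1 : ∀ x, out1 _ p (f1 x) = x := by
    rintro ⟨a, b⟩
    rw [hf1, map_add, out_Dm, hσ', hτ']
    exact Prod.ext (add_zero a) (zero_add b)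
  refine LinearMap.ext fun x => ?_
  have e2 : p (mkT (Kc (A := A) Q Q') f0 f1 h1 h2 x) = p (f0 x.x0) + p (f1 x.x1) :=
    map_add p _ _
  have e3 : p (f0 x.x0) = ⟨x.x0, 0⟩ := by
    rw [p_D0]
    exact congrArg (fun y => (⟨y, 0⟩ : (Kc (A := A) Q Q').T)) (e0 x.x0)
  have e4 : p (f1 x.x1) = ⟨0, x.x1⟩ := by
    rw [p_D1]
    exact congrArg (fun y => (⟨0, y⟩ : (Kc (A := A) Q Q').T)) (e1 x.x1)
  refine e2.trans ?_
  rw [e3, e4]
  exact Cx.T.ext (add_zero _) (zero_add _)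

instance [Module.Projective A Q] [Module.Projective A Q'] :
    Module.Projective (Per A) (Kc (A := A) Q Q').T :=
  Module.Projective.of_lifting_property'' (fun f hf => Kc_sec Q Q' f hf)

end K

section Pres

variable {P0 P1 M : Type u} [AddCommGroup P0] [Module A P0] [AddCommGroup P1] [Module A P1]
  [AddCommGroup M] [Module A M] (ι : P1 →ₗ[A] P0) (π : P0 →ₗ[A] M)

/-- `P1 → P0`, with the zero map back -/
def Gc : Cx A where
  X0 := P1
  X1 := P0
  d := ι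
  d' := 0
  h _ := rfl
  h' _ := map_zero _

/-- `M` in degree 0 -/
def Yc (A : Type u) [Ring A] (M : Type u) [AddCommGroup M] [Module A M] : Cx A where
  X0 := M
  X1 := PUnit
  d := 0
  d' := 0
  h _ := rfl
  h' _ := rfl

/-- the even and the odd terms -/
def cx (P0 P1 : Type u) [AddCommGroup P0] [Module A P0] [AddCommGroup P1] [Module A P1] :
    Bool → Cx A
  | false => Kc P0 P1
  | true => Kc P1 P0

instance [Module.Projective A P0] [Module.Projective A P1] (b : Bool) :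
    Module.Projective (Per A) (cx (A := A) P0 P1 b).T := by
  cases b
  · exact inferInstanceAs (Module.Projective (Per A) (Kc (A := A) P0 P1).T)
  · exact inferInstanceAs (Module.Projective (Per A) (Kc (A := A) P1 P0).T)

/-- `(a, b) ↦ (0, a - ι b)` in degree 0 and `(a, b) ↦ (b, - ι b)` in degree 1 -/
def Dft : (Kc (A := A) P0 P1).T →ₗ[Per A] (Kc (A := A) P1 P0).T :=
  mapT (Kc (A := A) P0 P1) (Kc (A := A) P1 P0)
    (LinearMap.prod 0 (LinearMap.fst A P0 P1 - ι ∘ₗ LinearMap.snd A P0 P1))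
    (LinearMap.prod (LinearMap.snd A P0 P1) (-(ι ∘ₗ LinearMap.snd A P0 P1)))
    (by
      rintro ⟨a, b⟩
      show ((0, 0) : P1 × P0) = (0, -(ι 0))
      simp)
    (by
      rintro ⟨a, b⟩
      show ((0, -(ι b)) : P1 × P0) = (0, 0 - ι b)
      simp)

/-- `(a, b) ↦ (ι a, a)` in degree 0 and `(a, b) ↦ (b + ι a, 0)` in degree 1 -/
def Dtf : (Kc (A := A) P1 P0).T →ₗ[Per A] (Kc (A := A) P0 P1).T :=
  mapT (Kc (A := A) P1 P0) (Kc (A := A) P0 P1)
    (LinearMap.prod (ι ∘ₗ LinearMap.fst A P1 P0) (LinearMap.fst A P1 P0))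
    (LinearMap.prod (LinearMap.snd A P1 P0 + ι ∘ₗ LinearMap.fst A P1 P0) 0)
    (by
      rintro ⟨a, b⟩
      show ((ι a, 0) : P0 × P1) = (0 + ι a, 0)
      simp)
    (by
      rintro ⟨a, b⟩
      show ((0, 0) : P0 × P1) = (ι 0, 0)
      simp)

theorem Dft_apply (a c : P0) (b e : P1) :
    Dft (A := A) ι ⟨(a, b), (c, e)⟩ = ⟨(0, a - ι b), (e, -(ι e))⟩ := rfl

theorem Dtf_apply (a c : P1) (b e : P0) :
    Dtf (A := A) ι ⟨(a, b), (c, e)⟩ = ⟨(ι a, a), (e + ι c, 0)⟩ := rfl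

theorem exact_ft : LinearMap.range (Dft (A := A) ι) = LinearMap.ker (Dtf (A := A) ι) := by
  apply le_antisymm
  · rintro _ ⟨⟨⟨a, b⟩, ⟨c, e⟩⟩, rfl⟩
    rw [LinearMap.mem_ker, Dft_apply, Dtf_apply]
    refine Cx.T.ext ?_ ?_
    · show ((ι 0, 0) : P0 × P1) = (0, 0)
      simp
    · show ((-(ι e) + ι e, 0) : P0 × P1) = (0, 0)
      simp
  · rintro ⟨⟨a, b⟩, ⟨c, e⟩⟩ h
    rw [LinearMap.mem_ker, Dtf_apply] at h
    have h1 : ((ι a, a) : P0 × P1) = 0 := congrArg Cx.T.x0 h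
    have h2 : ((e + ι c, 0) : P0 × P1) = 0 := congrArg Cx.T.x1 h
    have h3 : a = 0 := congrArg Prod.snd h1
    have h4 : e + ι c = 0 := congrArg Prod.fst h2
    refine ⟨⟨(b, 0), (0, c)⟩, ?_⟩
    rw [Dft_apply]
    refine Cx.T.ext ?_ ?_
    · show ((0, b - ι 0) : P1 × P0) = (a, b)
      rw [h3, map_zero, sub_zero]
    · show ((c, -(ι c)) : P1 × P0) = (c, e)
      rw [eq_neg_of_add_eq_zero_left h4]

theorem exact_tf : LinearMap.range (Dtf (A := A) ι) = LinearMap.ker (Dft (A := A) ι) := by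
  apply le_antisymm
  · rintro _ ⟨⟨⟨a, b⟩, ⟨c, e⟩⟩, rfl⟩
    rw [LinearMap.mem_ker, Dtf_apply, Dft_apply]
    refine Cx.T.ext ?_ ?_
    · show ((0, ι a - ι a) : P1 × P0) = (0, 0)
      simp
    · show ((0, -(ι 0)) : P1 × P0) = (0, 0)
      simp
  · rintro ⟨⟨a, b⟩, ⟨c, e⟩⟩ h
    rw [LinearMap.mem_ker, Dft_apply] at h
    have h1 : ((0, a - ι b) : P1 × P0) = 0 := congrArg Cx.T.x0 h
    have h2 : ((e, -(ι e)) : P1 × P0) = 0 := congrArg Cx.T.x1 h
    have h3 : a - ι b = 0 := congrArg Prod.snd h1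
    have h4 : e = 0 := congrArg Prod.fst h2
    refine ⟨⟨(b, 0), (0, c)⟩, ?_⟩
    rw [Dtf_apply]
    refine Cx.T.ext ?_ ?_
    · show ((ι b, b) : P0 × P1) = (a, b)
      rw [sub_eq_zero.1 h3]
    · show ((c + ι 0, 0) : P0 × P1) = (c, e)
      rw [h4, map_zero, add_zero]

/-- the differential of the acyclic complex -/
def dC : (b b' : Bool) → b' = !b → ((cx (A := A) P0 P1 b).T →ₗ[Per A] (cx (A := A) P0 P1 b').T)
  | false, true, _ => Dft ι
  | true, false, _ => Dtf ι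
  | false, false, h => by simp at h
  | true, true, h => by simp at h

theorem exact_dC (b b' b'' : Bool) (h : b' = !b) (h' : b'' = !b') :
    LinearMap.range (dC (A := A) ι b b' h) = LinearMap.ker (dC (A := A) ι b' b'' h') := by
  cases b <;> cases b' <;> cases b'' <;> simp at h h'
  · exact exact_ft ι
  · exact exact_tf ι

/-- the inclusion of the complex `P1 → P0` as the kernel of the differential -/
def incG : (Gc (A := A) ι).T →ₗ[Per A] (Kc (A := A) P0 P1).T :=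
  mapT (Gc ι) (Kc (A := A) P0 P1)
    (LinearMap.prod ι LinearMap.id)
    (LinearMap.inl A P0 P1)
    (fun x => rfl)
    (fun x => by
      show ((0, 0) : P0 × P1) = (ι 0, 0)
      simp)

theorem incG_apply (a : P1) (b : P0) :
    incG (A := A) ι ⟨a, b⟩ = ⟨(ι a, a), (b, 0)⟩ := rfl

theorem incG_inj : Function.Injective (incG (A := A) ι) := by
  intro x y h
  have h1 : ((ι x.x0, x.x0) : P0 × P1) = (ι y.x0, y.x0) := congrArg Cx.T.x0 h
  have h2 : ((x.x1, 0) : P0 × P1) = (y.x1, 0) := congrArg Cx.T.x1 h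
  have h3 : x.x0 = y.x0 := congrArg Prod.snd h1
  have h4 : x.x1 = y.x1 := congrArg Prod.fst h2
  exact Cx.T.ext h3 h4

theorem range_incG : LinearMap.range (incG (A := A) ι) = LinearMap.ker (Dft (A := A) ι) := by
  apply le_antisymm
  · rintro _ ⟨x, rfl⟩
    rw [LinearMap.mem_ker]
    refine Cx.T.ext ?_ ?_
    · show ((0, ι x.x0 - ι x.x0) : P1 × P0) = (0, 0)
      simp
    · show ((0, -(ι 0)) : P1 × P0) = (0, 0)
      simp
  · rintro ⟨⟨a, b⟩, ⟨c, e⟩⟩ h
    rw [LinearMap.mem_ker, Dft_apply] at h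
    have h1 : ((0, a - ι b) : P1 × P0) = 0 := congrArg Cx.T.x0 h
    have h2 : ((e, -(ι e)) : P1 × P0) = 0 := congrArg Cx.T.x1 h
    have h3 : a - ι b = 0 := congrArg Prod.snd h1
    have h4 : e = 0 := congrArg Prod.fst h2
    refine ⟨⟨b, c⟩, ?_⟩
    refine Cx.T.ext ?_ ?_
    · show ((ι b, b) : P0 × P1) = (a, b)
      rw [sub_eq_zero.1 h3]
    · show ((c, 0) : P0 × P1) = (c, e)
      rw [h4]

/-- the complex `P1 → P0` is the kernel of the differential -/
noncomputable def eqvG : (Gc (A := A) ι).T ≃ₗ[Per A] LinearMap.ker (Dft (A := A) ι) :=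
  (LinearEquiv.ofInjective (incG (A := A) ι) (incG_inj ι)).trans
    (LinearEquiv.ofEq _ _ (range_incG ι))

end Pres

end Pool.Agent.W631.GP
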