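import Pool.Agent.W631.GP.Ext
import Pool.Agent.W631.VP.Neg

set_option autoImplicit false

/-!
# Deconstructibility of all the classes of `𝒳`-Gorenstein projective modules and Vopěnka's principle
-/

namespace Pool.Agent.W631.GP

open Cardinal Pool.Agent.W440.DL Pool.Agent.W631.VP FirstOrder

universe u

/-- `G` is `𝒳`-Gorenstein projective: `G` is (isomorphic to) the kernel of `P 0 → P 1` for an
acyclic complex `(P n)`, `n ∈ ℤ`, of projective modules, and `Ext¹(G, X) = 0` for all `X ∈ 𝒳`. -/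
def XGP {R : Type u} [Ring R] (X : Cls R) : Cls R := fun G =>
  (∃ (P : ℤ → ModuleCat.{u} R) (d : ∀ n : ℤ, P n →ₗ[R] P (n + 1)),
    (∀ n, Module.Projective R (P n)) ∧
    (∀ n, LinearMap.range (d n) = LinearMap.ker (d (n + 1))) ∧
    Nonempty (G ≃ₗ[R] LinearMap.ker (d 0))) ∧
  ∀ Y, X Y → ExtZero G Y

/-- `C` is deconstructible: for some set `S` of modules in `C`, every module in `C` is
`S`-filtered. -/
def SetDeconstructible {R : Type u} [Ring R] (C : Cls R) : Prop :=
  ∃ S : Set (ModuleCat.{u} R), Small.{u} S ∧ (∀ N ∈ S, C N) ∧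
    ∀ M, C M → HasFiltration (fun N => ∃ N' ∈ S, Nonempty (N ≃ₗ[R] N')) M

/-- **(DGP)**: over every ring `R` and for every class `𝒳` of `R`-modules, the class of
`𝒳`-Gorenstein projective modules is deconstructible. -/
def DGP : Prop :=
  ∀ (R : Type u) [Ring R] (X : Cls R), SetDeconstructible (XGP X)

section

variable {A : Type u} [Ring A] (M : Type u) [AddCommGroup M] [Module A M]

/-- the free module on the elements of `M` -/
abbrev F0 (A : Type u) [Ring A] (M : Type u) : Type u := M →₀ A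

/-- the free cover -/
noncomputable def pi0 (A : Type u) [Ring A] (M : Type u) [AddCommGroup M] [Module A M] :
    F0 A M →ₗ[A] M := Finsupp.linearCombination A id

theorem pi0_surj : Function.Surjective (pi0 A M) := fun m =>
  ⟨Finsupp.single m 1, by simp [pi0]⟩

/-- the free module on the elements of the kernel -/
abbrev F1 (A : Type u) [Ring A] (M : Type u) [AddCommGroup M] [Module A M] : Type u :=
  LinearMap.ker (pi0 A M) →₀ A

/-- the presentation -/
noncomputable def io0 (A : Type u) [Ring A] (M : Type u) [AddCommGroup M] [Module A M] :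
    F1 A M →ₗ[A] F0 A M :=
  (LinearMap.ker (pi0 A M)).subtype ∘ₗ Finsupp.linearCombination A id

theorem range_io0 : LinearMap.range (io0 A M) = LinearMap.ker (pi0 A M) := by
  apply le_antisymm
  · rintro _ ⟨x, rfl⟩
    exact (Finsupp.linearCombination A id x : LinearMap.ker (pi0 A M)).2
  · intro x hx
    refine ⟨Finsupp.single ⟨x, hx⟩ 1, ?_⟩
    simp [io0]

/-- the module over `Per A` given by the presentation of `M` -/
noncomputable abbrev GM (A : Type u) [Ring A] (M : Type u) [AddCommGroup M] [Module A M] :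
    ModuleCat.{u} (Per A) := ModuleCat.of (Per A) (Gc (A := A) (io0 A M)).T

theorem GM_complex : ∃ (P : ℤ → ModuleCat.{u} (Per A))
    (d : ∀ n : ℤ, P n →ₗ[Per A] P (n + 1)),
    (∀ n, Module.Projective (Per A) (P n)) ∧
    (∀ n, LinearMap.range (d n) = LinearMap.ker (d (n + 1))) ∧
    Nonempty (GM A M ≃ₗ[Per A] LinearMap.ker (d 0)) := by
  refine ⟨fun n => ModuleCat.of (Per A) (cx (A := A) (F0 A M) (F1 A M) n.bodd).T,
    fun n => dC (io0 A M) n.bodd (n + 1).bodd (by simp), ?_, ?_, ?_⟩
  · intro n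
    infer_instance
  · intro n
    exact exact_dC (io0 A M) _ _ _ _ _
  · exact ⟨eqvG (io0 A M)⟩

end

/-- The instance of Vopěnka's principle for the class `K` of `L`-structures: if `K` is a proper
class, then there are distinct `A, B ∈ K` with an elementary embedding `A → B`. -/
def VPFor (L : FirstOrder.Language.{u, u})
    (K : Set (CategoryTheory.Bundled.{u} L.Structure)) : Prop :=
  ¬ Small.{u} K → ∃ A ∈ K, ∃ B ∈ K, A ≠ B ∧ Nonempty (A ↪ₑ[L] B)

/-- **Vopěnka's principle**. -/
def VP : Prop := ∀ (L : FirstOrder.Language.{u, u})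
    (K : Set (CategoryTheory.Bundled.{u} L.Structure)), VPFor L K

section

variable {L : FirstOrder.Language.{u, u}}

theorem exists_large' {I : Type (u + 1)} (hI : ¬ Small.{u} I) (A : I → Type u)
    [∀ i, L.Structure (A i)] (hA : ∀ i j, i ≠ j → IsEmpty (A i ↪ₑ[L] A j)) (μ : Cardinal.{u}) :
    ∃ i, μ < #(A i) := by
  have h1 : #Ordinal.{u} ≤ #I := by
    rw [Cardinal.small_iff_lift_mk_lt_univ, not_lt, Cardinal.lift_id] at hI
    rw [Cardinal.mk_ordinal]
    exact hI
  obtain ⟨f⟩ := h1
  obtain ⟨β, hβ⟩ := exists_large (L := L) (A := fun α => A (f α))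
    (fun α β hne => hA _ _ (fun h => hne (f.injective h))) μ
  exact ⟨f β, hβ⟩

/-- the module attached to a structure -/
noncomputable abbrev GA (L : FirstOrder.Language.{u, u}) (A : Type u) [L.Structure A] :
    ModuleCat.{u} (Per (FR (Lt L))) := GM (FR (Lt L)) (X0 (opsA L A))

/-- the class of modules attached to a family of structures -/
def XX {I : Type (u + 1)} (A : I → Type u) [∀ i, L.Structure (A i)] : Cls (Per (FR (Lt L))) :=
  fun Y => ∀ i, ExtZero (GA L (A i)) Y

theorem key {I : Type (u + 1)} (hI : ¬ Small.{u} I) (A : I → Type u)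
    [∀ i, L.Structure (A i)] (hA : ∀ i j, i ≠ j → IsEmpty (A i ↪ₑ[L] A j)) :
    ¬ SetDeconstructible (XGP (XX (L := L) A)) := by
  rintro ⟨S, hS, hS1, hS2⟩
  let R := Per (FR (Lt L))
  let μ : Cardinal.{u} := max (max #R ℵ₀)
    (Cardinal.sum (fun i : Shrink.{u} S => #((equivShrink S).symm i).1))
  have hμ : ℵ₀ ≤ μ := (le_max_right _ _).trans (le_max_left _ _)
  have hR : #R ≤ μ := (le_max_left _ _).trans (le_max_left _ _)
  have hSμ : ∀ N ∈ S, #N ≤ μ := by
    intro N hN
    have h1 := Cardinal.le_sum (fun i : Shrink.{u} S => #((equivShrink S).symm i).1)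
      (equivShrink S ⟨N, hN⟩)
    rw [Equiv.symm_apply_apply] at h1
    exact h1.trans (le_max_right _ _)
  obtain ⟨β, hβ⟩ := exists_large' hI A hA μ
  let Y : ModuleCat.{u} R := ModuleCat.of R (Yc (FR (Lt L)) (X0 (opsA L (A β)))).T
  have hsub : ∀ T : Submodule R Y, #T ≤ μ → XX (L := L) A (ModuleCat.of R T) := by
    intro T hT i
    refine ext_zero_of (io0 (FR (Lt L)) (X0 (opsA L (A i)))) (pi0 (FR (Lt L)) (X0 (opsA L (A i))))
      (pi0_surj _) (range_io0 _) (ModuleCat.of R T) (e1_Y T) ?_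
    intro f
    by_contra hf
    obtain ⟨g, hg, hg'⟩ := sub_Y T f hf
    obtain ⟨h1, h2⟩ := lin0 g hg
    have h3 : i = β := by
      by_contra hne
      exact (hA i β hne).false h1.some
    subst h3
    exact absurd (h2.trans (hg'.trans hT)) (not_le.2 hβ)
  have hSY : ∀ N ∈ S, ExtZero N Y := by
    intro N hN
    exact small_ext hμ hR (hSμ N hN) (fun T hT => (hS1 N hN).2 _ (hsub T hT))
  have hG : XGP (XX (L := L) A) (GA L (A β)) := ⟨GM_complex _, fun Y hY => hY β⟩
  have hGY : ExtZero (GA L (A β)) Y := by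
    refine eklof (filt_of_hasFiltration (hS2 _ hG)) ?_
    rintro N ⟨N', hN', ⟨e⟩⟩
    exact (hSY N' hN').congr_left e.symm
  have h2 : Nonempty (A β) := by
    rw [← Cardinal.mk_ne_zero_iff]
    exact (lt_of_le_of_lt (zero_le) hβ).ne'
  obtain ⟨a⟩ := h2
  refine not_ext_zero (io0 (FR (Lt L)) (X0 (opsA L (A β)))) (pi0 (FR (Lt L)) (X0 (opsA L (A β))))
    (pi0_surj _) ?_ (eo (ops0 (opsA L (A β))) (Finsupp.single (fun _ => a) 1)) ?_ hGY
  · intro x
    exact (range_io0 _).le ⟨x, rfl⟩
  · rw [Ne, AddEquiv.map_eq_zero_iff]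
    intro h
    exact one_ne_zero (Finsupp.single_eq_zero.1 h)

end

end Pool.Agent.W631.GP
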