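import Mathlib

set_option autoImplicit false

/-!
# The ring of 2-periodic complexes
-/

namespace Pool.Agent.W631.GP

universe u

/-- The ring of 2-periodic complexes over `A`: matrices `(a0, b0; b1, a1)` over `A` in which the
product of two off-diagonal entries is put equal to zero. Its modules are the pairs of `A`-modules
`X0`, `X1` with maps `X0 → X1 → X0` whose composites are zero. -/
@[ext]
structure Per (A : Type u) : Type u where
  /-- diagonal entry -/
  a0 : A
  /-- diagonal entry -/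
  a1 : A
  /-- off-diagonal entry -/
  b0 : A
  /-- off-diagonal entry -/
  b1 : A

variable {A : Type u} [Ring A]

namespace Per

/-- equivalence with the product -/
def eqv (A : Type u) : Per A ≃ A × A × A × A where
  toFun x := (x.a0, x.a1, x.b0, x.b1)
  invFun x := ⟨x.1, x.2.1, x.2.2.1, x.2.2.2⟩
  left_inv _ := rfl
  right_inv _ := rfl

instance : AddCommGroup (Per A) := (eqv A).addCommGroup

@[simp] theorem add_a0 (x y : Per A) : (x + y).a0 = x.a0 + y.a0 := rfl
@[simp] theorem add_a1 (x y : Per A) : (x + y).a1 = x.a1 + y.a1 := rfl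
@[simp] theorem add_b0 (x y : Per A) : (x + y).b0 = x.b0 + y.b0 := rfl
@[simp] theorem add_b1 (x y : Per A) : (x + y).b1 = x.b1 + y.b1 := rfl
@[simp] theorem zero_a0 : (0 : Per A).a0 = 0 := rfl
@[simp] theorem zero_a1 : (0 : Per A).a1 = 0 := rfl
@[simp] theorem zero_b0 : (0 : Per A).b0 = 0 := rfl
@[simp] theorem zero_b1 : (0 : Per A).b1 = 0 := rfl

instance : Mul (Per A) :=
  ⟨fun x y => ⟨x.a0 * y.a0, x.a1 * y.a1, x.a0 * y.b0 + x.b0 * y.a1, x.a1 * y.b1 + x.b1 * y.a0⟩⟩

instance : One (Per A) := ⟨⟨1, 1, 0, 0⟩⟩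

@[simp] theorem mul_a0 (x y : Per A) : (x * y).a0 = x.a0 * y.a0 := rfl
@[simp] theorem mul_a1 (x y : Per A) : (x * y).a1 = x.a1 * y.a1 := rfl
@[simp] theorem mul_b0 (x y : Per A) : (x * y).b0 = x.a0 * y.b0 + x.b0 * y.a1 := rfl
@[simp] theorem mul_b1 (x y : Per A) : (x * y).b1 = x.a1 * y.b1 + x.b1 * y.a0 := rfl
@[simp] theorem one_a0 : (1 : Per A).a0 = 1 := rfl
@[simp] theorem one_a1 : (1 : Per A).a1 = 1 := rfl
@[simp] theorem one_b0 : (1 : Per A).b0 = 0 := rfl
@[simp] theorem one_b1 : (1 : Per A).b1 = 0 := rfl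

instance : Ring (Per A) :=
  { (inferInstance : AddCommGroup (Per A)) with
    mul_assoc := fun x y z => by ext <;> simp [mul_assoc, mul_add, add_mul, add_assoc]
    one_mul := fun x => by ext <;> simp
    mul_one := fun x => by ext <;> simp
    left_distrib := fun x y z => by ext <;> simp [mul_add] <;> abel
    right_distrib := fun x y z => by ext <;> simp [add_mul] <;> abel
    zero_mul := fun x => by ext <;> simp
    mul_zero := fun x => by ext <;> simp }

end Per

/-- 2-periodic complexes -/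
structure Cx (A : Type u) [Ring A] where
  /-- degree 0 -/
  X0 : Type u
  /-- degree 1 -/
  X1 : Type u
  [g0 : AddCommGroup X0]
  [g1 : AddCommGroup X1]
  [m0 : Module A X0]
  [m1 : Module A X1]
  /-- differential -/
  d : X0 →ₗ[A] X1
  /-- differential -/
  d' : X1 →ₗ[A] X0
  h : ∀ x, d' (d x) = 0
  h' : ∀ x, d (d' x) = 0

attribute [instance] Cx.g0 Cx.g1 Cx.m0 Cx.m1

/-- the module of a complex -/
@[ext]
structure Cx.T (X : Cx A) : Type u where
  /-- component -/
  x0 : X.X0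
  /-- component -/
  x1 : X.X1

namespace Cx

variable (X : Cx A)

/-- equivalence with the product -/
def eqv : X.T ≃ X.X0 × X.X1 where
  toFun x := (x.x0, x.x1)
  invFun x := ⟨x.1, x.2⟩
  left_inv _ := rfl
  right_inv _ := rfl

instance : AddCommGroup X.T := X.eqv.addCommGroup

variable {X}

@[simp] theorem add_x0 (x y : X.T) : (x + y).x0 = x.x0 + y.x0 := rfl
@[simp] theorem add_x1 (x y : X.T) : (x + y).x1 = x.x1 + y.x1 := rfl
@[simp] theorem zero_x0 : (0 : X.T).x0 = 0 := rfl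
@[simp] theorem zero_x1 : (0 : X.T).x1 = 0 := rfl
@[simp] theorem neg_x0 (x : X.T) : (-x).x0 = -x.x0 := rfl
@[simp] theorem neg_x1 (x : X.T) : (-x).x1 = -x.x1 := rfl
@[simp] theorem sub_x0 (x y : X.T) : (x - y).x0 = x.x0 - y.x0 := rfl
@[simp] theorem sub_x1 (x y : X.T) : (x - y).x1 = x.x1 - y.x1 := rfl

instance : SMul (Per A) X.T :=
  ⟨fun r x => ⟨r.a0 • x.x0 + r.b0 • X.d' x.x1, r.a1 • x.x1 + r.b1 • X.d x.x0⟩⟩

@[simp] theorem smul_x0 (r : Per A) (x : X.T) : (r • x).x0 = r.a0 • x.x0 + r.b0 • X.d' x.x1 := rfl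
@[simp] theorem smul_x1 (r : Per A) (x : X.T) : (r • x).x1 = r.a1 • x.x1 + r.b1 • X.d x.x0 := rfl

instance : Module (Per A) X.T where
  one_smul x := by ext <;> simp
  mul_smul r s x := by
    ext
    · simp [mul_smul, add_smul, X.h', X.h, add_assoc]
    · simp [mul_smul, add_smul, X.h', X.h, add_assoc]
  smul_zero r := by ext <;> simp
  smul_add r x y := by
    ext
    · simp only [smul_x0, add_x0, add_x1, map_add, smul_add]; abel
    · simp only [smul_x1, add_x0, add_x1, map_add, smul_add]; abel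
  add_smul r s x := by
    ext
    · simp only [smul_x0, add_x0, Per.add_a0, Per.add_b0, add_smul]; abel
    · simp only [smul_x1, add_x1, Per.add_a1, Per.add_b1, add_smul]; abel
  zero_smul x := by ext <;> simp

end Cx

section Abstract

/-- idempotent -/
def e0 : Per A := ⟨1, 0, 0, 0⟩
/-- idempotent -/
def e1 : Per A := ⟨0, 1, 0, 0⟩
/-- differential from degree 0 to degree 1 -/
def dd : Per A := ⟨0, 0, 0, 1⟩
/-- differential from degree 1 to degree 0 -/
def dd' : Per A := ⟨0, 0, 1, 0⟩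
/-- scalars in degree 0 -/
def s0 (a : A) : Per A := ⟨a, 0, 0, 0⟩
/-- scalars in degree 1 -/
def s1 (a : A) : Per A := ⟨0, a, 0, 0⟩

theorem e0_e0 : (e0 : Per A) * e0 = e0 := by ext <;> simp [e0]
theorem e1_e1 : (e1 : Per A) * e1 = e1 := by ext <;> simp [e1]
theorem e0_e1 : (e0 : Per A) * e1 = 0 := by ext <;> simp [e0, e1]
theorem e1_e0 : (e1 : Per A) * e0 = 0 := by ext <;> simp [e0, e1]
theorem e0_add_e1 : (e0 : Per A) + e1 = 1 := by ext <;> simp [e0, e1]
theorem e0_s0 (a : A) : (e0 : Per A) * s0 a = s0 a := by ext <;> simp [e0, s0]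
theorem e1_s1 (a : A) : (e1 : Per A) * s1 a = s1 a := by ext <;> simp [e1, s1]
theorem s0_mul (a b : A) : (s0 (a * b) : Per A) = s0 a * s0 b := by ext <;> simp [s0]
theorem s1_mul (a b : A) : (s1 (a * b) : Per A) = s1 a * s1 b := by ext <;> simp [s1]
theorem s0_add (a b : A) : (s0 (a + b) : Per A) = s0 a + s0 b := by ext <;> simp [s0]
theorem s1_add (a b : A) : (s1 (a + b) : Per A) = s1 a + s1 b := by ext <;> simp [s1]
theorem s0_zero : (s0 (0 : A) : Per A) = 0 := by ext <;> simp [s0]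
theorem s1_zero : (s1 (0 : A) : Per A) = 0 := by ext <;> simp [s1]
theorem s0_one : (s0 (1 : A) : Per A) = e0 := rfl
theorem s1_one : (s1 (1 : A) : Per A) = e1 := rfl
theorem e1_dd : (e1 : Per A) * dd = dd := by ext <;> simp [e1, dd]
theorem e0_dd' : (e0 : Per A) * dd' = dd' := by ext <;> simp [e0, dd']
theorem dd_s0 (a : A) : (dd : Per A) * s0 a = s1 a * dd := by ext <;> simp [dd, s0, s1]
theorem dd'_s1 (a : A) : (dd' : Per A) * s1 a = s0 a * dd' := by ext <;> simp [dd', s0, s1]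
theorem dd_dd' : (dd : Per A) * dd' = 0 := by ext <;> simp [dd, dd']
theorem dd'_dd : (dd' : Per A) * dd = 0 := by ext <;> simp [dd, dd']
theorem mul_e0 (r : Per A) : r * e0 = s0 r.a0 + s1 r.b1 * dd := by
  ext <;> simp [e0, s0, s1, dd]
theorem mul_e1 (r : Per A) : r * e1 = s1 r.a1 + s0 r.b0 * dd' := by
  ext <;> simp [e1, s0, s1, dd']

variable (A) (E : Type u) [AddCommGroup E] [Module (Per A) E]

/-- the part of degree 0 of a module -/
def D0 : AddSubgroup E where
  carrier := {y | (e0 : Per A) • y = y}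
  zero_mem' := smul_zero _
  add_mem' := fun {a b} ha hb => by
    show (e0 : Per A) • (a + b) = a + b
    rw [smul_add, ha, hb]
  neg_mem' := fun {a} ha => by
    show (e0 : Per A) • (-a) = -a
    rw [smul_neg, ha]

/-- the part of degree 1 of a module -/
def D1 : AddSubgroup E where
  carrier := {y | (e1 : Per A) • y = y}
  zero_mem' := smul_zero _
  add_mem' := fun {a b} ha hb => by
    show (e1 : Per A) • (a + b) = a + b
    rw [smul_add, ha, hb]
  neg_mem' := fun {a} ha => by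
    show (e1 : Per A) • (-a) = -a
    rw [smul_neg, ha]

variable {A E}

theorem mem_D0 {y : E} : y ∈ D0 A E ↔ (e0 : Per A) • y = y := Iff.rfl
theorem mem_D1 {y : E} : y ∈ D1 A E ↔ (e1 : Per A) • y = y := Iff.rfl

theorem e0_smul_mem (y : E) : (e0 : Per A) • y ∈ D0 A E := by
  rw [mem_D0, smul_smul, e0_e0]

theorem e1_smul_mem (y : E) : (e1 : Per A) • y ∈ D1 A E := by
  rw [mem_D1, smul_smul, e1_e1]

theorem dd_smul_mem (y : E) : (dd : Per A) • y ∈ D1 A E := by
  rw [mem_D1, smul_smul, e1_dd]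

theorem dd'_smul_mem (y : E) : (dd' : Per A) • y ∈ D0 A E := by
  rw [mem_D0, smul_smul, e0_dd']

theorem e1_D0 (y : D0 A E) : (e1 : Per A) • (y : E) = 0 := by
  rw [← mem_D0.1 y.2, smul_smul, e1_e0, zero_smul]

theorem e0_D1 (y : D1 A E) : (e0 : Per A) • (y : E) = 0 := by
  rw [← mem_D1.1 y.2, smul_smul, e0_e1, zero_smul]

instance : SMul A (D0 A E) := ⟨fun a y => ⟨s0 a • (y : E), by
  rw [mem_D0, smul_smul, e0_s0]⟩⟩

instance : SMul A (D1 A E) := ⟨fun a y => ⟨s1 a • (y : E), by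
  rw [mem_D1, smul_smul, e1_s1]⟩⟩

theorem coe_smul0 (a : A) (y : D0 A E) : ((a • y : D0 A E) : E) = s0 a • (y : E) := rfl
theorem coe_smul1 (a : A) (y : D1 A E) : ((a • y : D1 A E) : E) = s1 a • (y : E) := rfl

instance : Module A (D0 A E) where
  one_smul y := Subtype.ext (by rw [coe_smul0, s0_one]; exact y.2)
  mul_smul a b y := Subtype.ext (by rw [coe_smul0, coe_smul0, coe_smul0, s0_mul, mul_smul])
  smul_zero a := Subtype.ext (smul_zero _)
  smul_add a x y := Subtype.ext (smul_add _ _ _)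
  add_smul a b y := Subtype.ext (by
    rw [coe_smul0, s0_add, add_smul]; rfl)
  zero_smul y := Subtype.ext (by rw [coe_smul0, s0_zero, zero_smul]; rfl)

instance : Module A (D1 A E) where
  one_smul y := Subtype.ext (by rw [coe_smul1, s1_one]; exact y.2)
  mul_smul a b y := Subtype.ext (by rw [coe_smul1, coe_smul1, coe_smul1, s1_mul, mul_smul])
  smul_zero a := Subtype.ext (smul_zero _)
  smul_add a x y := Subtype.ext (smul_add _ _ _)
  add_smul a b y := Subtype.ext (by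
    rw [coe_smul1, s1_add, add_smul]; rfl)
  zero_smul y := Subtype.ext (by rw [coe_smul1, s1_zero, zero_smul]; rfl)

/-- differential -/
def Dm : D0 A E →ₗ[A] D1 A E where
  toFun y := ⟨(dd : Per A) • (y : E), dd_smul_mem _⟩
  map_add' x y := Subtype.ext (smul_add _ _ _)
  map_smul' a y := Subtype.ext (by
    show (dd : Per A) • (s0 a • (y : E)) = s1 a • ((dd : Per A) • (y : E))
    rw [smul_smul, dd_s0, mul_smul])

/-- differential -/
def Dm' : D1 A E →ₗ[A] D0 A E where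
  toFun y := ⟨(dd' : Per A) • (y : E), dd'_smul_mem _⟩
  map_add' x y := Subtype.ext (smul_add _ _ _)
  map_smul' a y := Subtype.ext (by
    show (dd' : Per A) • (s1 a • (y : E)) = s0 a • ((dd' : Per A) • (y : E))
    rw [smul_smul, dd'_s1, mul_smul])

theorem coe_Dm (y : D0 A E) : ((Dm y : D1 A E) : E) = (dd : Per A) • (y : E) := rfl
theorem coe_Dm' (y : D1 A E) : ((Dm' y : D0 A E) : E) = (dd' : Per A) • (y : E) := rfl

theorem Dm'_Dm (y : D0 A E) : Dm' (Dm y) = 0 := Subtype.ext (by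
  rw [coe_Dm', coe_Dm, smul_smul, dd'_dd, zero_smul]; rfl)

theorem Dm_Dm' (y : D1 A E) : Dm (Dm' y) = 0 := Subtype.ext (by
  rw [coe_Dm, coe_Dm', smul_smul, dd_dd', zero_smul]; rfl)

/-- a linear map from the module of a complex is given by two maps commuting with the
differentials -/
def mkT (X : Cx A) (f0 : X.X0 →ₗ[A] D0 A E) (f1 : X.X1 →ₗ[A] D1 A E)
    (h : ∀ x, Dm (f0 x) = f1 (X.d x)) (h' : ∀ x, Dm' (f1 x) = f0 (X.d' x)) :
    X.T →ₗ[Per A] E where
  toFun x := (f0 x.x0 : E) + (f1 x.x1 : E)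
  map_add' x y := by
    simp only [Cx.add_x0, Cx.add_x1, map_add, AddSubgroup.coe_add]
    abel
  map_smul' r x := by
    have e1' : ∀ y : D0 A E, r • (y : E) = ((r.a0 • y : D0 A E) : E) +
        ((r.b1 • Dm y : D1 A E) : E) := by
      intro y
      rw [coe_smul0, coe_smul1, coe_Dm, smul_smul, ← add_smul, ← mul_e0, mul_smul, y.2]
    have e2' : ∀ y : D1 A E, r • (y : E) = ((r.a1 • y : D1 A E) : E) +
        ((r.b0 • Dm' y : D0 A E) : E) := by
      intro y
      rw [coe_smul0, coe_smul1, coe_Dm', smul_smul, ← add_smul, ← mul_e1, mul_smul, y.2]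
    rw [RingHom.id_apply, smul_add, e1', e2', h, h', Cx.smul_x0, Cx.smul_x1, map_add, map_add,
      map_smul, map_smul, map_smul, map_smul, AddSubgroup.coe_add, AddSubgroup.coe_add]
    abel

theorem mkT_apply (X : Cx A) (f0 : X.X0 →ₗ[A] D0 A E) (f1 : X.X1 →ₗ[A] D1 A E)
    (h : ∀ x, Dm (f0 x) = f1 (X.d x)) (h' : ∀ x, Dm' (f1 x) = f0 (X.d' x)) (x : X.T) :
    mkT X f0 f1 h h' x = (f0 x.x0 : E) + (f1 x.x1 : E) := rfl

/-- inclusion of the part of degree 0 -/
def in0 (X : Cx A) : X.X0 →ₗ[A] D0 A X.T where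
  toFun x := ⟨⟨x, 0⟩, by
    rw [mem_D0]
    ext <;> simp [e0]⟩
  map_add' x y := Subtype.ext (by
    show (⟨x + y, 0⟩ : X.T) = ⟨x, 0⟩ + ⟨y, 0⟩
    ext <;> simp)
  map_smul' a x := Subtype.ext (by
    show (⟨a • x, 0⟩ : X.T) = (s0 a : Per A) • (⟨x, 0⟩ : X.T)
    ext <;> simp [s0])

/-- inclusion of the part of degree 1 -/
def in1 (X : Cx A) : X.X1 →ₗ[A] D1 A X.T where
  toFun x := ⟨⟨0, x⟩, by
    rw [mem_D1]
    ext <;> simp [e1]⟩
  map_add' x y := Subtype.ext (by
    show (⟨0, x + y⟩ : X.T) = ⟨0, x⟩ + ⟨0, y⟩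
    ext <;> simp)
  map_smul' a x := Subtype.ext (by
    show (⟨0, a • x⟩ : X.T) = (s1 a : Per A) • (⟨0, x⟩ : X.T)
    ext <;> simp [s1])

/-- maps between complexes -/
def mapT (X Y : Cx A) (f0 : X.X0 →ₗ[A] Y.X0) (f1 : X.X1 →ₗ[A] Y.X1)
    (h : ∀ x, Y.d (f0 x) = f1 (X.d x)) (h' : ∀ x, Y.d' (f1 x) = f0 (X.d' x)) :
    X.T →ₗ[Per A] Y.T where
  toFun x := ⟨f0 x.x0, f1 x.x1⟩
  map_add' x y := by ext <;> simp
  map_smul' r x := by
    ext
    · simp [h']
    · simp [h]

/-- degree 0 part of a map to a complex -/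
def out0 (X : Cx A) (p : E →ₗ[Per A] X.T) : D0 A E →ₗ[A] X.X0 where
  toFun y := (p y).x0
  map_add' x y := by
    rw [AddSubgroup.coe_add, map_add]; rfl
  map_smul' a y := by
    rw [coe_smul0, map_smul]
    simp [s0]

/-- degree 1 part of a map to a complex -/
def out1 (X : Cx A) (p : E →ₗ[Per A] X.T) : D1 A E →ₗ[A] X.X1 where
  toFun y := (p y).x1
  map_add' x y := by
    rw [AddSubgroup.coe_add, map_add]; rfl
  map_smul' a y := by
    rw [coe_smul1, map_smul]
    simp [s1]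

theorem p_D0 {X : Cx A} (p : E →ₗ[Per A] X.T) (y : D0 A E) : p y = ⟨out0 X p y, 0⟩ := by
  have h : p y = (e0 : Per A) • p y := by rw [← map_smul, mem_D0.1 y.2]
  have h1 : (p y).x1 = 0 := by
    rw [h]
    simp [e0]
  ext
  · rfl
  · exact h1

theorem p_D1 {X : Cx A} (p : E →ₗ[Per A] X.T) (y : D1 A E) : p y = ⟨0, out1 X p y⟩ := by
  have h : p y = (e1 : Per A) • p y := by rw [← map_smul, mem_D1.1 y.2]
  have h1 : (p y).x0 = 0 := by
    rw [h]
    simp [e1]
  ext
  · exact h1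
  · rfl

theorem out0_surj {X : Cx A} (p : E →ₗ[Per A] X.T) (hp : Function.Surjective p) :
    Function.Surjective (out0 X p) := by
  intro x
  obtain ⟨y, hy⟩ := hp ⟨x, 0⟩
  refine ⟨⟨(e0 : Per A) • y, e0_smul_mem y⟩, ?_⟩
  show (p ((e0 : Per A) • y)).x0 = x
  rw [map_smul, hy]
  simp [e0]

theorem out1_surj {X : Cx A} (p : E →ₗ[Per A] X.T) (hp : Function.Surjective p) :
    Function.Surjective (out1 X p) := by
  intro x
  obtain ⟨y, hy⟩ := hp ⟨0, x⟩
  refine ⟨⟨(e1 : Per A) • y, e1_smul_mem y⟩, ?_⟩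
  show (p ((e1 : Per A) • y)).x1 = x
  rw [map_smul, hy]
  simp [e1]

theorem out_Dm {X : Cx A} (p : E →ₗ[Per A] X.T) (y : D0 A E) :
    out1 X p (Dm y) = X.d (out0 X p y) := by
  show (p ((dd : Per A) • (y : E))).x1 = X.d (out0 X p y)
  rw [map_smul, p_D0]
  simp [dd]

theorem out_Dm' {X : Cx A} (p : E →ₗ[Per A] X.T) (y : D1 A E) :
    out0 X p (Dm' y) = X.d' (out1 X p y) := by
  show (p ((dd' : Per A) • (y : E))).x0 = X.d' (out1 X p y)
  rw [map_smul, p_D1]
  simp [dd']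

end Abstract

end Pool.Agent.W631.GP
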